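import Mathlib

/-!
# The maximal concurrency of lines in the Wang-Shi split is at most `d + 1`

The lines through an interior point `p` that cross two sides meeting in a vertex `V` meet these
sides at integer distances `(i, j)` from `V` that lie on one branch of a hyperbola
`(i - d u) (j - d v) = d u d v`. Consecutive integer points of such a branch have `i - j` increasing
by at least `3`, apart from at most one pair, where the increase is `2`. Summing over the three
vertices gives `3 μ ≤ 3 d + 3`.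
-/

set_option autoImplicit false

namespace Pool.Agent.Results.MP_e74ad6_co.WangShi

open Finset

/-! ### Integer points on a branch of a hyperbola -/

open scoped Classical in
/-- the integer points of the branch in the square `[1, d] ^ 2` -/
noncomputable def hyp (d : ℕ) (u v : ℝ) : Finset (ℤ × ℤ) :=
  (Icc (1 : ℤ) d ×ˢ Icc (1 : ℤ) d).filter fun q =>
    ((q.1 : ℝ) - d * u) * ((q.2 : ℝ) - d * v) = (d * u) * (d * v)

theorem mem_hyp {d : ℕ} {u v : ℝ} {i j : ℤ} : (i, j) ∈ hyp d u v ↔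
    ((1 ≤ i ∧ i ≤ d) ∧ (1 ≤ j ∧ j ≤ d)) ∧
      ((i : ℝ) - d * u) * ((j : ℝ) - d * v) = (d * u) * (d * v) := by
  rw [hyp, mem_filter, mem_product, mem_Icc, mem_Icc]

theorem pos_of_mem {d : ℕ} (hd : 1 ≤ d) {u v : ℝ} (hu : 0 < u) (hv : 0 < v) {i j : ℤ}
    (h : (i, j) ∈ hyp d u v) : 0 < (i : ℝ) - d * u ∧ 0 < (j : ℝ) - d * v := by
  obtain ⟨⟨⟨hi, -⟩, ⟨hj, -⟩⟩, he⟩ := mem_hyp.mp h
  have hi' : (1 : ℝ) ≤ i := by exact_mod_cast hi
  have hj' : (1 : ℝ) ≤ j := by exact_mod_cast hj
  have hd' : (0 : ℝ) < d := by exact_mod_cast hd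
  have hdu : 0 < (d : ℝ) * u := mul_pos hd' hu
  have hdv : 0 < (d : ℝ) * v := mul_pos hd' hv
  have key : (i : ℝ) * j = i * (d * v) + j * (d * u) := by linear_combination he
  constructor
  · by_contra hcon
    push Not at hcon
    have h1 : (j : ℝ) * ((i : ℝ) - d * u) ≤ 0 :=
      mul_nonpos_of_nonneg_of_nonpos (by linarith) hcon
    have h2 : 0 < (i : ℝ) * (d * v) := mul_pos (by linarith) hdv
    nlinarith
  · by_contra hcon
    push Not at hcon
    have h1 : (i : ℝ) * ((j : ℝ) - d * v) ≤ 0 :=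
      mul_nonpos_of_nonneg_of_nonpos (by linarith) hcon
    have h2 : 0 < (j : ℝ) * (d * u) := mul_pos (by linarith) hdu
    nlinarith

/-- along the branch, one coordinate increases exactly when the other decreases -/
theorem lt_iff {d : ℕ} (hd : 1 ≤ d) {u v : ℝ} (hu : 0 < u) (hv : 0 < v) {i j i' j' : ℤ}
    (h : (i, j) ∈ hyp d u v) (h' : (i', j') ∈ hyp d u v) : i < i' ↔ j' < j := by
  obtain ⟨p1, p2⟩ := pos_of_mem hd hu hv h
  obtain ⟨p1', p2'⟩ := pos_of_mem hd hu hv h'
  have e := (mem_hyp.mp h).2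
  have e' := (mem_hyp.mp h').2
  constructor
  · intro hlt
    by_contra hcon
    push Not at hcon
    have c1 : (i : ℝ) < i' := by exact_mod_cast hlt
    have c2 : (j : ℝ) ≤ j' := by exact_mod_cast hcon
    have : ((i : ℝ) - d * u) * ((j : ℝ) - d * v) < ((i' : ℝ) - d * u) * ((j' : ℝ) - d * v) :=
      mul_lt_mul (by linarith) (by linarith) p2 p1'.le
    linarith
  · intro hlt
    by_contra hcon
    push Not at hcon
    have c1 : (i' : ℝ) ≤ i := by exact_mod_cast hcon
    have c2 : (j' : ℝ) < j := by exact_mod_cast hlt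
    have : ((i' : ℝ) - d * u) * ((j' : ℝ) - d * v) < ((i : ℝ) - d * u) * ((j : ℝ) - d * v) :=
      mul_lt_mul' (by linarith) (by linarith) p2'.le p1
    linarith

theorem card_hyp {d : ℕ} (hd : 1 ≤ d) {u v : ℝ} (hu : 0 < u) (hv : 0 < v) (lo hi : ℤ)
    (hlo : lo ≤ hi + 4) (hb : ∀ i j : ℤ, (i, j) ∈ hyp d u v → lo ≤ i - j ∧ i - j ≤ hi) :
    3 * ((hyp d u v).card : ℤ) ≤ hi - lo + 4 := by
  classical
  rcases (hyp d u v).eq_empty_or_nonempty with he | ⟨⟨i0, j0⟩, h0⟩
  · rw [he, card_empty]; push_cast; omega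
  set T : Finset ℤ := (hyp d u v).image fun q => q.1 - q.2 with hT
  have hinj : Set.InjOn (fun q : ℤ × ℤ => q.1 - q.2) (hyp d u v : Set (ℤ × ℤ)) := by
    rintro ⟨i, j⟩ h ⟨i', j'⟩ h' he
    simp only [mem_coe] at h h' he
    have l1 := lt_iff hd hu hv h h'
    have l2 := lt_iff hd hu hv h' h
    rw [Prod.mk.injEq]
    omega
  have hTc : T.card = (hyp d u v).card := card_image_of_injOn hinj
  have hTm : ∀ t, t ∈ T ↔ ∃ i j : ℤ, (i, j) ∈ hyp d u v ∧ i - j = t := by
    intro t
    rw [hT, mem_image]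
    constructor
    · rintro ⟨⟨i, j⟩, h, he⟩; exact ⟨i, j, h, he⟩
    · rintro ⟨i, j, h, he⟩; exact ⟨⟨i, j⟩, h, he⟩
  set T1 : Finset ℤ := T.image (fun t => t + 1) with hT1
  set T2 : Finset ℤ := T.image (fun t => t + 2) with hT2
  have c1 : T1.card = T.card := card_image_of_injective _ (add_left_injective 1)
  have c2 : T2.card = T.card := card_image_of_injective _ (add_left_injective 2)
  have hstep : ∀ t ∈ T, t + 1 ∉ T := by
    intro t ht ht'
    obtain ⟨i, j, h, he⟩ := (hTm _).mp ht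
    obtain ⟨i', j', h', he'⟩ := (hTm _).mp ht'
    have l1 := lt_iff hd hu hv h h'
    have l2 := lt_iff hd hu hv h' h
    omega
  have hd1 : Disjoint T1 (T ∪ T2) := by
    rw [disjoint_left]
    intro t ht ht'
    rw [hT1, mem_image] at ht
    obtain ⟨s, hs, rfl⟩ := ht
    rcases mem_union.mp ht' with h | h
    · exact hstep s hs h
    · rw [hT2, mem_image] at h
      obtain ⟨r, hr, he⟩ := h
      have : s = r + 1 := by omega
      subst this
      exact hstep r hr hs
  have hint : (T ∩ T2).card ≤ 1 := by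
    rw [card_le_one]
    have key : ∀ t ∈ T ∩ T2, ∃ i j : ℤ, (i, j) ∈ hyp d u v ∧ i - j = t ∧
        ((i : ℝ) - d * u) = (j - d * v) + 1 := by
      intro t ht
      obtain ⟨ht, ht2⟩ := mem_inter.mp ht
      obtain ⟨s, hs, hst⟩ := mem_image.mp ht2
      obtain ⟨i, j, h, he⟩ := (hTm _).mp ht
      obtain ⟨i', j', h', he'⟩ := (hTm _).mp hs
      have l1 := lt_iff hd hu hv h h'
      have l2 := lt_iff hd hu hv h' h
      have a1 : i' = i - 1 := by omega
      have a2 : j' = j + 1 := by omega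
      subst a1; subst a2
      refine ⟨i, j, h, he, ?_⟩
      have e := (mem_hyp.mp h).2
      have e' := (mem_hyp.mp h').2
      push_cast at e'
      linear_combination e' - e
    intro t ht t' ht'
    obtain ⟨i, j, h, he, hr⟩ := key t ht
    obtain ⟨i', j', h', he', hr'⟩ := key t' ht'
    obtain ⟨-, p⟩ := pos_of_mem hd hu hv h
    obtain ⟨-, p'⟩ := pos_of_mem hd hu hv h'
    have e := (mem_hyp.mp h).2
    have e' := (mem_hyp.mp h').2
    rw [hr] at e
    rw [hr'] at e'
    have hj : (j : ℝ) = j' := by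
      have : ((j : ℝ) - j') * ((j - d * v) + (j' - d * v) + 1) = 0 := by
        linear_combination e - e'
      rcases mul_eq_zero.mp this with h0 | h0
      · linarith
      · linarith
    have hjj : j = j' := by exact_mod_cast hj
    have hii : (i : ℝ) = i' := by
      rw [hj] at hr
      linarith
    have hii' : i = i' := by exact_mod_cast hii
    omega
  have hun : 3 * T.card ≤ (T1 ∪ (T ∪ T2)).card + 1 := by
    rw [card_union_of_disjoint hd1, c1]
    have := card_union_add_card_inter T T2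
    omega
  have hsub : T1 ∪ (T ∪ T2) ⊆ Icc lo (hi + 2) := by
    have hTb : ∀ t ∈ T, lo ≤ t ∧ t ≤ hi := by
      intro t ht
      obtain ⟨i, j, h, rfl⟩ := (hTm _).mp ht
      exact hb i j h
    intro t ht
    rw [mem_Icc]
    rcases mem_union.mp ht with h | h
    · rw [hT1, mem_image] at h
      obtain ⟨s, hs, rfl⟩ := h
      have := hTb s hs
      omega
    · rcases mem_union.mp h with h | h
      · have := hTb t h
        omega
      · rw [hT2, mem_image] at h
        obtain ⟨s, hs, rfl⟩ := h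
        have := hTb s hs
        omega
  have hle := card_le_card hsub
  rw [Int.card_Icc] at hle
  have hb0 := hb i0 j0 h0
  rw [← hTc]
  omega

/-- The bound for the lines of one type, the `d`-end of the first side left out. -/
theorem type_bound {d : ℕ} (hd : 1 ≤ d) {u v : ℝ} (hu : 0 < u) (hv : 0 < v) (huv : u + v < 1) :
    3 * (((hyp d u v).filter fun q => q.1 < (d : ℤ)).card : ℤ) ≤ 2 * d + 2
      - 2 * (⌊d * v / (1 - u)⌋ + 1 - ⌈d * v / (1 - u)⌉)
      + (⌊d * u / (1 - v)⌋ + 1 - ⌈d * u / (1 - v)⌉)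
      - ⌈d * u / (1 - v)⌉ - ⌈d * v / (1 - u)⌉ := by
  classical
  have hd' : (0 : ℝ) < d := by exact_mod_cast hd
  have h1u : 0 < 1 - u := by linarith
  have h1v : 0 < 1 - v := by linarith
  set b : ℝ := d * v / (1 - u) with hbdef
  set c : ℝ := d * u / (1 - v) with hcdef
  have hb : b * (1 - u) = d * v := by rw [hbdef]; field_simp
  have hc : c * (1 - v) = d * u := by rw [hcdef]; field_simp
  have hb0 : 0 < b := by rw [hbdef]; positivity
  have hc0 : 0 < c := by rw [hcdef]; positivity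
  have hbd : b < d := by
    rw [hbdef, div_lt_iff₀ h1u]
    nlinarith
  have hcd : c < d := by
    rw [hcdef, div_lt_iff₀ h1v]
    nlinarith
  -- bounds
  have bd : ∀ i j : ℤ, (i, j) ∈ hyp d u v → b ≤ j ∧ c ≤ i ∧ (i = d → (j : ℝ) = b) ∧
      (j = d → (i : ℝ) = c) := by
    intro i j h
    obtain ⟨p1, p2⟩ := pos_of_mem hd hu hv h
    obtain ⟨⟨⟨hi, hid⟩, ⟨hj, hjd⟩⟩, he⟩ := mem_hyp.mp h
    have hid' : (i : ℝ) ≤ d := by exact_mod_cast hid
    have hjd' : (j : ℝ) ≤ d := by exact_mod_cast hjd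
    have k1 : ((d : ℝ) - d * u) * (b - d * v) = (d * u) * (d * v) := by
      linear_combination (d : ℝ) * hb
    have k2 : (c - d * u) * ((d : ℝ) - d * v) = (d * u) * (d * v) := by
      linear_combination (d : ℝ) * hc
    have q1 : 0 < (d : ℝ) - d * u := by nlinarith
    have q2 : 0 < (d : ℝ) - d * v := by nlinarith
    refine ⟨?_, ?_, ?_, ?_⟩
    · by_contra hcon
      push Not at hcon
      have : ((i : ℝ) - d * u) * ((j : ℝ) - d * v) < ((d : ℝ) - d * u) * (b - d * v) :=
        mul_lt_mul' (by linarith) (by linarith) p2.le q1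
      linarith
    · by_contra hcon
      push Not at hcon
      have : ((i : ℝ) - d * u) * ((j : ℝ) - d * v) < (c - d * u) * ((d : ℝ) - d * v) :=
        mul_lt_mul (by linarith) (by linarith) p2 (by linarith)
      linarith
    · intro hid
      rw [hid] at he
      have : ((d : ℝ) - d * u) * ((j : ℝ) - b) = 0 := by
        push_cast at he
        linear_combination he - k1
      rcases mul_eq_zero.mp this with h0 | h0
      · linarith
      · linarith
    · intro hjd
      rw [hjd] at he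
      have : ((i : ℝ) - c) * ((d : ℝ) - d * v) = 0 := by
        push_cast at he
        linear_combination he - k2
      rcases mul_eq_zero.mp this with h0 | h0
      · linarith
      · linarith
  -- ceilings
  have hceilb : ⌈b⌉ ≤ d := Int.ceil_le.mpr (by exact_mod_cast hbd.le)
  have hceilc : ⌈c⌉ ≤ d := Int.ceil_le.mpr (by exact_mod_cast hcd.le)
  have hfb : ⌊b⌋ ≤ ⌈b⌉ := Int.floor_le_ceil b
  have hfc : ⌊c⌋ ≤ ⌈c⌉ := Int.floor_le_ceil c
  have hfb' : ⌈b⌉ ≤ ⌊b⌋ + 1 := Int.ceil_le_floor_add_one b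
  have hfc' : ⌈c⌉ ≤ ⌊c⌋ + 1 := Int.ceil_le_floor_add_one c
  have main := card_hyp hd hu hv (⌈c⌉ - (d - 1 + (⌊c⌋ + 1 - ⌈c⌉)))
    ((d - 1 + (⌊b⌋ + 1 - ⌈b⌉)) - ⌈b⌉) (by omega) (by
      intro i j h
      obtain ⟨h1, h2, h3, h4⟩ := bd i j h
      obtain ⟨⟨⟨hi, hid⟩, ⟨hj, hjd⟩⟩, he⟩ := mem_hyp.mp h
      have g1 : ⌈b⌉ ≤ j := Int.ceil_le.mpr h1
      have g2 : ⌈c⌉ ≤ i := Int.ceil_le.mpr h2
      have g3 : i ≤ d - 1 + (⌊b⌋ + 1 - ⌈b⌉) := by
        by_cases hh : i = d
        · have := h3 hh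
          rw [← this, Int.floor_intCast, Int.ceil_intCast]
          omega
        · have : i ≤ d - 1 := by omega
          omega
      have g4 : j ≤ d - 1 + (⌊c⌋ + 1 - ⌈c⌉) := by
        by_cases hh : j = d
        · have := h4 hh
          rw [← this, Int.floor_intCast, Int.ceil_intCast]
          omega
        · have : j ≤ d - 1 := by omega
          omega
      omega)
  -- leaving out the end
  have hS : (((hyp d u v).filter fun q => q.1 < (d : ℤ)).card : ℤ) + (⌊b⌋ + 1 - ⌈b⌉) ≤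
      (hyp d u v).card := by
    by_cases hbi : ⌊b⌋ = ⌈b⌉
    · have hbf : (⌊b⌋ : ℝ) = b := by
        apply le_antisymm (Int.floor_le b)
        rw [hbi]
        exact Int.le_ceil b
      have hmem : ((d : ℤ), ⌊b⌋) ∈ hyp d u v := by
        rw [mem_hyp]
        refine ⟨⟨⟨by exact_mod_cast hd, le_refl _⟩, ?_, by omega⟩, ?_⟩
        · have : (0 : ℝ) < (⌊b⌋ : ℝ) := by rw [hbf]; exact hb0
          have : (0 : ℤ) < ⌊b⌋ := by exact_mod_cast this
          omega
        · push_cast
          rw [hbf]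
          linear_combination (d : ℝ) * hb
      have hss : (hyp d u v).filter (fun q => q.1 < (d : ℤ)) ⊂ hyp d u v := by
        rw [Finset.ssubset_iff_of_subset (filter_subset _ _)]
        refine ⟨_, hmem, ?_⟩
        rw [mem_filter]
        rintro ⟨-, h⟩
        exact lt_irrefl _ h
      have := card_lt_card hss
      omega
    · have := card_filter_le (hyp d u v) (fun q => q.1 < (d : ℤ))
      omega
  omega

/-! ### The Wang-Shi split -/

/-- The points that divide the sides of the triangle with vertices `v 0, v 1, v 2` into `d` segments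
of equal length, the vertices included. -/
def divPoints (v : Fin 3 → ℝ × ℝ) (d : ℕ) : Set (ℝ × ℝ) :=
  {x | ∃ k : Fin 3, ∃ i : ℕ, i ≤ d ∧ x = AffineMap.lineMap (v k) (v (k + 1)) ((i : ℝ) / d)}

/-- The lines of the Wang-Shi split: the lines through two division points that do not lie on a
common side. -/
def wsLines (v : Fin 3 → ℝ × ℝ) (d : ℕ) : Set (AffineSubspace ℝ (ℝ × ℝ)) :=
  {ℓ | ∃ x ∈ divPoints v d, ∃ y ∈ divPoints v d,
    (∀ k : Fin 3, ¬ (x ∈ segment ℝ (v k) (v (k + 1)) ∧ y ∈ segment ℝ (v k) (v (k + 1)))) ∧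
    ℓ = line[ℝ, x, y]}

/-- the line that meets the two sides at the vertex `v k` in the division points at distances `i`
and `j` from this vertex -/
noncomputable def cross (v : Fin 3 → ℝ × ℝ) (d : ℕ) (k : Fin 3) (q : ℤ × ℤ) :
    AffineSubspace ℝ (ℝ × ℝ) :=
  line[ℝ, AffineMap.lineMap (v k) (v (k + 1)) ((q.1 : ℝ) / d),
    AffineMap.lineMap (v k) (v (k + 2)) ((q.2 : ℝ) / d)]

theorem fin3_cases : ∀ k l : Fin 3, l = k ∨ l = k + 1 ∨ l = k + 2 := by decide

theorem fin3_ne : ∀ k : Fin 3, k + 1 ≠ k ∧ k + 2 ≠ k ∧ k + 1 ≠ k + 2 := by decide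

theorem fin3_e12 : ∀ k : Fin 3, k + 1 + 2 = k := by decide

theorem fin3_e21 : ∀ k : Fin 3, k + 2 + 1 = k := by decide

theorem fin3_e22 : ∀ k : Fin 3, k + 2 + 2 = k + 1 := by decide

/-- every line of the split is a line `cross v d k (i, j)` -/
theorem exists_cross {v : Fin 3 → ℝ × ℝ} {d : ℕ} (hd : 1 ≤ d) {ℓ : AffineSubspace ℝ (ℝ × ℝ)}
    (hℓ : ℓ ∈ wsLines v d) : ∃ k : Fin 3, ∃ i j : ℕ, i ≤ d ∧ j ≤ d ∧ ℓ = cross v d k (i, j) := by
  have hd' : (d : ℝ) ≠ 0 := by
    have : (0 : ℝ) < d := by exact_mod_cast hd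
    exact this.ne'
  obtain ⟨x, ⟨k, i, hi, hx⟩, y, ⟨l, j, hj, hy⟩, hxy, rfl⟩ := hℓ
  have hrev : ∀ (P Q : ℝ × ℝ) (m : ℕ), m ≤ d →
      (AffineMap.lineMap P Q ((m : ℝ) / d) : ℝ × ℝ) =
        AffineMap.lineMap Q P (((d - m : ℕ) : ℝ) / d) := by
    intro P Q m hm
    rw [← AffineMap.lineMap_apply_one_sub P Q, Nat.cast_sub hm]
    congr 1
    field_simp
    ring
  have hseg : ∀ (k : Fin 3) (m : ℕ), m ≤ d →
      (AffineMap.lineMap (v k) (v (k + 1)) ((m : ℝ) / d) : ℝ × ℝ) ∈
        segment ℝ (v k) (v (k + 1)) := by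
    intro k m hm
    rw [segment_eq_image_lineMap]
    refine ⟨(m : ℝ) / d, ⟨by positivity, ?_⟩, rfl⟩
    rw [div_le_one (by positivity)]
    exact_mod_cast hm
  rcases fin3_cases k l with h | h | h
  · subst h
    exact absurd ⟨hx ▸ hseg l i hi, hy ▸ hseg l j hj⟩ (hxy l)
  · -- `y` on the next side: the common vertex is `v (k + 1)`
    subst h
    refine ⟨k + 1, j, d - i, hj, Nat.sub_le _ _, ?_⟩
    rw [cross, hx, hy, hrev _ _ _ hi, Set.pair_comm]
    rw [fin3_e12]
    push_cast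
    rfl
  · subst h
    refine ⟨k, i, d - j, hi, Nat.sub_le _ _, ?_⟩
    rw [cross, hx, hy, hrev _ _ _ hj, fin3_e21]
    push_cast
    rfl

/-- reading a cevian from the other side -/
theorem cross_rev {v : Fin 3 → ℝ × ℝ} {d : ℕ} (hd : 1 ≤ d) (k : Fin 3) (j : ℕ) (hj : j ≤ d) :
    cross v d k ((d : ℤ), (j : ℤ)) = cross v d (k + 2) (((d - j : ℕ) : ℤ), (d : ℤ)) := by
  have hd' : (d : ℝ) ≠ 0 := by
    have : (0 : ℝ) < d := by exact_mod_cast hd
    exact this.ne'
  rw [cross, cross, fin3_e21, fin3_e22, Set.pair_comm]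
  simp only [Int.cast_natCast, div_self hd', AffineMap.lineMap_apply_one]
  rw [← AffineMap.lineMap_apply_one_sub (v k) (v (k + 2)), Nat.cast_sub hj]
  congr 5
  field_simp
  ring

/-- the distances of a line through `p` from a vertex give an integer point of the hyperbola -/
theorem mem_hyp_of_mem (b : AffineBasis (Fin 3) ℝ (ℝ × ℝ)) {d : ℕ} (hd : 1 ≤ d) (p : ℝ × ℝ)
    (hp : ∀ k, 0 < b.coord k p) (k : Fin 3) (i j : ℕ) (hi : i ≤ d) (hj : j ≤ d)
    (h : p ∈ cross b d k ((i : ℤ), (j : ℤ))) :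
    ((i : ℤ), (j : ℤ)) ∈ hyp d (b.coord (k + 1) p) (b.coord (k + 2) p) := by
  have hd' : (0 : ℝ) < d := by exact_mod_cast hd
  rw [cross, mem_affineSpan_pair_iff_exists_lineMap_eq] at h
  obtain ⟨s, hs⟩ := h
  obtain ⟨n1, n2, n3⟩ := fin3_ne k
  have c1 : b.coord (k + 1) p = (1 - s) * (i / d) := by
    rw [← hs, AffineMap.apply_lineMap, AffineMap.apply_lineMap, AffineMap.apply_lineMap,
      b.coord_apply_eq, b.coord_apply_ne n1, b.coord_apply_ne n3]
    simp only [AffineMap.lineMap_apply_ring']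
    push_cast
    ring
  have c2 : b.coord (k + 2) p = s * (j / d) := by
    rw [← hs, AffineMap.apply_lineMap, AffineMap.apply_lineMap, AffineMap.apply_lineMap,
      b.coord_apply_eq, b.coord_apply_ne n2, b.coord_apply_ne n3.symm]
    simp only [AffineMap.lineMap_apply_ring']
    push_cast
    ring
  have p1 := hp (k + 1)
  have p2 := hp (k + 2)
  have hi1 : i ≠ 0 := by
    rintro rfl
    rw [c1] at p1
    simp at p1
  have hj1 : j ≠ 0 := by
    rintro rfl
    rw [c2] at p2
    simp at p2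
  rw [mem_hyp, c1, c2]
  refine ⟨⟨⟨by omega, by exact_mod_cast hi⟩, by omega, by exact_mod_cast hj⟩, ?_⟩
  push_cast
  field_simp
  ring

theorem floor_ceil_compl {d : ℕ} {x y : ℝ} (h : x + y = d) :
    ⌊y⌋ = d - ⌈x⌉ ∧ ⌈y⌉ = d - ⌊x⌋ := by
  have hy : y = ((d : ℤ) : ℝ) + (-x) := by push_cast; linarith
  rw [hy, Int.floor_intCast_add, Int.ceil_intCast_add, Int.floor_neg, Int.ceil_neg]
  omega

/-- the lines of the split through an interior point, counted once each -/
theorem main (b : AffineBasis (Fin 3) ℝ (ℝ × ℝ)) {d : ℕ} (hd : 1 ≤ d) (p : ℝ × ℝ)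
    (hp : ∀ k, 0 < b.coord k p) : {ℓ ∈ wsLines b d | p ∈ ℓ}.encard ≤ d + 1 := by
  classical
  have hd' : (0 : ℝ) < d := by exact_mod_cast hd
  have hsum : b.coord 0 p + b.coord 1 p + b.coord 2 p = 1 := by
    have := b.sum_coord_apply_eq_one p
    rw [Fin.sum_univ_three] at this
    exact this
  set S : Fin 3 → Finset (ℤ × ℤ) := fun k =>
    (hyp d (b.coord (k + 1) p) (b.coord (k + 2) p)).filter fun q => q.1 < (d : ℤ) with hS
  have hsub : {ℓ ∈ wsLines b d | p ∈ ℓ} ⊆
      (((univ : Finset (Fin 3)).sigma S).image fun x => cross b d x.1 x.2 :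
        Finset (AffineSubspace ℝ (ℝ × ℝ))) := by
    rintro ℓ ⟨hℓ, hpℓ⟩
    obtain ⟨k, i, j, hi, hj, rfl⟩ := exists_cross hd hℓ
    rw [coe_image]
    by_cases hid : i < d
    · refine ⟨⟨k, ((i : ℤ), (j : ℤ))⟩, ?_, rfl⟩
      rw [mem_coe, mem_sigma]
      refine ⟨mem_univ _, ?_⟩
      rw [hS]
      exact mem_filter.mpr ⟨mem_hyp_of_mem b hd p hp k i j hi hj hpℓ,
        by simp only; exact_mod_cast hid⟩
    · have hid' : i = d := le_antisymm hi (not_lt.mp hid)
      subst hid'
      have hm := mem_hyp_of_mem b hd p hp k i j hi hj hpℓ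
      have hj1 : 1 ≤ j := by
        have := (mem_hyp.mp hm).1.2.1
        exact_mod_cast this
      rw [cross_rev hd k j hj] at hpℓ ⊢
      refine ⟨⟨k + 2, (((i - j : ℕ) : ℤ), (i : ℤ))⟩, ?_, rfl⟩
      rw [mem_coe, mem_sigma]
      refine ⟨mem_univ _, ?_⟩
      rw [hS]
      exact mem_filter.mpr ⟨mem_hyp_of_mem b hd p hp (k + 2) (i - j) i (Nat.sub_le _ _) le_rfl hpℓ,
        by simp only; omega⟩
  have hcard : (((univ : Finset (Fin 3)).sigma S).image fun x => cross b d x.1 x.2).card ≤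
      d + 1 := by
    refine card_image_le.trans ?_
    rw [card_sigma, Fin.sum_univ_three]
    have t0 := type_bound hd (hp 1) (hp 2) (by linarith [hp 0])
    have t1 := type_bound hd (hp 2) (hp 0) (by linarith [hp 1])
    have t2 := type_bound hd (hp 0) (hp 1) (by linarith [hp 2])
    have s0 : S 0 = (hyp d (b.coord 1 p) (b.coord 2 p)).filter fun q => q.1 < (d : ℤ) := rfl
    have s1 : S 1 = (hyp d (b.coord 2 p) (b.coord 0 p)).filter fun q => q.1 < (d : ℤ) := rfl
    have s2 : S 2 = (hyp d (b.coord 0 p) (b.coord 1 p)).filter fun q => q.1 < (d : ℤ) := rfl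
    rw [← s0] at t0
    rw [← s1] at t1
    rw [← s2] at t2
    have n0 : 1 - b.coord 0 p ≠ 0 := by
      have := hp 1; have := hp 2; intro h; linarith
    have n1 : 1 - b.coord 1 p ≠ 0 := by
      have := hp 0; have := hp 2; intro h; linarith
    have n2 : 1 - b.coord 2 p ≠ 0 := by
      have := hp 0; have := hp 1; intro h; linarith
    have r0 := floor_ceil_compl (d := d) (x := d * b.coord 1 p / (1 - b.coord 2 p))
      (y := d * b.coord 0 p / (1 - b.coord 2 p)) (by
        rw [← add_div, div_eq_iff n2]; linear_combination (d : ℝ) * hsum)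
    have r1 := floor_ceil_compl (d := d) (x := d * b.coord 2 p / (1 - b.coord 0 p))
      (y := d * b.coord 1 p / (1 - b.coord 0 p)) (by
        rw [← add_div, div_eq_iff n0]; linear_combination (d : ℝ) * hsum)
    have r2 := floor_ceil_compl (d := d) (x := d * b.coord 0 p / (1 - b.coord 1 p))
      (y := d * b.coord 2 p / (1 - b.coord 1 p)) (by
        rw [← add_div, div_eq_iff n1]; linear_combination (d : ℝ) * hsum)
    omega
  calc {ℓ ∈ wsLines b d | p ∈ ℓ}.encard
      ≤ ((((univ : Finset (Fin 3)).sigma S).image fun x => cross b d x.1 x.2 :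
        Finset (AffineSubspace ℝ (ℝ × ℝ))) : Set (AffineSubspace ℝ (ℝ × ℝ))).encard :=
        Set.encard_le_encard hsub
    _ = ((((univ : Finset (Fin 3)).sigma S).image fun x => cross b d x.1 x.2).card : ℕ∞) :=
        Set.encard_coe_eq_coe_finsetCard _
    _ ≤ d + 1 := by exact_mod_cast hcard

/-- **The concurrency of lines in the Wang-Shi split.** Let `v 0, v 1, v 2` be the vertices of a
triangle in the plane and `d ≥ 2`. Every interior point of the triangle lies on at most `d + 1`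
lines of the Wang-Shi split `WS_d`. -/
theorem result (d : ℕ) (hd : 2 ≤ d) (v : Fin 3 → ℝ × ℝ) (hv : AffineIndependent ℝ v) (p : ℝ × ℝ)
    (hp : p ∈ interior (convexHull ℝ (Set.range v))) :
    {ℓ ∈ wsLines v d | p ∈ ℓ}.encard ≤ d + 1 := by
  have htop : affineSpan ℝ (Set.range v) = ⊤ := by
    rw [hv.affineSpan_eq_top_iff_card_eq_finrank_add_one]
    simp
  let b : AffineBasis (Fin 3) ℝ (ℝ × ℝ) := ⟨v, hv, htop⟩
  have hb : (b : Fin 3 → ℝ × ℝ) = v := rfl
  rw [← hb, b.interior_convexHull] at hp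
  exact main b (by omega) p hp

end Pool.Agent.Results.MP_e74ad6_co.WangShi
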